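import Mathlib
import Pool.Agent.H94.WaExample

/-!
MP_2c9be0_lc, Q1 and Q2: there are a semiring and a function computed by a finite weighted
automaton over it which is guessable but not strongly guessable, and the same with co-guessable and
strongly co-guessable.
-/

open scoped Matrix

namespace Pool.Agent.Results.MP_2c9be0_lc.GuessBoth

variable {S : Type} [Semiring S] {A : Type}

/-- `f : A* → S` is computed by a finite weighted automaton: there are a number `n` of states,
an initial vector `x`, a transition matrix `M a` for every letter `a` and a final vector `y` with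
`f (a₁ ⋯ aₖ) = x · M a₁ ⋯ M aₖ · y`. -/
def Recognizable (f : List A → S) : Prop :=
  ∃ (n : ℕ) (x : Fin n → S) (M : A → Matrix (Fin n) (Fin n) S) (y : Fin n → S),
    ∀ w : List A, f w = x ⬝ᵥ ((w.map M).prod *ᵥ y)

/-- The set `Λ_{Q,T}`: the element `l` consists of the scalars `l.1 q = λ_q` and
`l.2 q a p = λ_{q,a,p}`, acting from the left on the rows `⟨p⟩_t = f (p ++ t)`, `t ∈ T`. -/
def Lam (f : List A → S) (Q : Finset (List A)) (T : Set (List A)) :
    Set ((Q → S) × (Q → A → Q → S)) :=
  {l | (∀ t ∈ T, f t = ∑ q : Q, l.1 q * f (q.1 ++ t)) ∧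
    (∀ (q : Q) (a : A), ∀ t ∈ T, f ((q.1 ++ [a]) ++ t) = ∑ p : Q, l.2 q a p * f (p.1 ++ t))}

/-- `f` is guessable: `Λ_{Q,T} = Λ_Q ≠ ∅` for some finite non-empty `Q` and finite `T`. -/
def Guessable (f : List A → S) : Prop :=
  ∃ Q T : Finset (List A), Q.Nonempty ∧ Lam f Q (T : Set (List A)) = Lam f Q Set.univ ∧
    (Lam f Q Set.univ).Nonempty

/-- `f` is strongly guessable: it is guessable and for every finite non-empty `Q` some finite `T`
has `Λ_{Q,T} = Λ_Q`. -/
def StronglyGuessable (f : List A → S) : Prop :=
  Guessable f ∧ ∀ Q : Finset (List A), Q.Nonempty →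
    ∃ T : Finset (List A), Lam f Q (T : Set (List A)) = Lam f Q Set.univ

/-- A sequence with the four properties gives, over each non-empty alphabet, a function that is
recognizable, guessable and not strongly guessable. -/
theorem mainRow {S : Type} [Semiring S] (g : ℕ → S)
    (P1 : ∀ l : S, l * g 0 = g 0 → ∀ n, l * g n = g n)
    (P2 : ∀ l : S, l * g 0 = g 1 → ∀ n, l * g n = g (n + 1))
    (P3 : ∀ k, ∃ l : S, (∀ n ≤ k, l * g n = g (n + 2)) ∧ l * g (k + 1) ≠ g (k + 1 + 2))
    (P4 : ∃ a b : S, ∀ n, g n = a ^ n * b)
    (A : Type) [Nonempty A] :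
    ∃ f : List A → S, Recognizable f ∧ Guessable f ∧ ¬ StronglyGuessable f := by
  classical
  obtain ⟨m, b, hg⟩ := P4
  refine ⟨fun w => g w.length, ?_, ?_, ?_⟩
  · refine ⟨1, fun _ => 1, fun _ => Matrix.of fun _ _ => m, fun _ => b, fun w => ?_⟩
    have key : ∀ w : List A,
        ((w.map fun _ => (Matrix.of fun _ _ => m : Matrix (Fin 1) (Fin 1) S)).prod) =
          (Matrix.of fun _ _ => m ^ w.length : Matrix (Fin 1) (Fin 1) S) := by
      intro w
      induction w with
      | nil =>
        ext i j
        have : i = j := Subsingleton.elim i j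
        subst this
        simp
      | cons a w ih =>
        rw [List.map_cons, List.prod_cons, ih]
        ext i j
        simp [Matrix.mul_apply, pow_succ']
    rw [key]
    simp [Matrix.mulVec, dotProduct, hg]
  · refine ⟨{[]}, {[]}, Finset.singleton_nonempty _, ?_, ?_⟩
    · apply Set.Subset.antisymm
      · rintro l ⟨h1, h2⟩
        have sum1 : ∀ (c : (({[]} : Finset (List A)) → S)) (t : List A),
            ∑ q : (({[]} : Finset (List A))), c q * g (q.1 ++ t).length =
              c ⟨[], Finset.mem_singleton_self _⟩ * g t.length := by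
          intro c t
          rw [Fintype.sum_eq_single (⟨[], Finset.mem_singleton_self _⟩ :
            (({[]} : Finset (List A))))]
          · rfl
          · intro x hx
            exact absurd (Subtype.ext (Finset.mem_singleton.1 x.2)) hx
        refine ⟨fun t _ => ?_, fun q a t _ => ?_⟩
        · have h := h1 [] (by simp)
          rw [sum1] at h ⊢
          exact (P1 _ h.symm t.length).symm
        · have h := h2 q a [] (by simp)
          have hq : q.1 = [] := Finset.mem_singleton.1 q.2
          rw [sum1] at h ⊢
          have h' : l.2 q a ⟨[], Finset.mem_singleton_self _⟩ * g 0 = g 1 := by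
            rw [← List.length_nil (α := A), ← h, hq]
            rfl
          rw [P2 _ h' t.length, hq]
          simp
      · rintro l ⟨h1, h2⟩
        exact ⟨fun t _ => h1 t (Set.mem_univ _), fun q a t _ => h2 q a t (Set.mem_univ _)⟩
    · refine ⟨(fun _ => 1, fun _ _ _ => m), fun t _ => ?_, fun q a t _ => ?_⟩
      · rw [Fintype.sum_eq_single (⟨[], Finset.mem_singleton_self _⟩ :
            (({[]} : Finset (List A))))]
        · simp
        · intro x hx
          exact absurd (Subtype.ext (Finset.mem_singleton.1 x.2)) hx
      · rw [Fintype.sum_eq_single (⟨[], Finset.mem_singleton_self _⟩ :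
            (({[]} : Finset (List A))))]
        · have hq : q.1 = [] := Finset.mem_singleton.1 q.2
          rw [hq]
          simp only [List.nil_append, List.length_append, List.length_singleton]
          rw [hg, hg, ← mul_assoc, ← pow_succ', add_comm]
        · intro x hx
          exact absurd (Subtype.ext (Finset.mem_singleton.1 x.2)) hx
  · rintro ⟨-, hstrong⟩
    obtain ⟨a₀⟩ := ‹Nonempty A›
    obtain ⟨T, hT⟩ := hstrong ({[], [a₀]} : Finset (List A)) ⟨[], by simp⟩
    obtain ⟨k, hk⟩ : ∃ k, ∀ t ∈ T, t.length ≤ k :=
      ⟨T.sup List.length, fun t ht => Finset.le_sup (f := List.length) ht⟩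
    obtain ⟨al, hal1, hal2⟩ := P3 k
    have mem0 : ([] : List A) ∈ ({[], [a₀]} : Finset (List A)) := by simp
    have mem1 : ([a₀] : List A) ∈ ({[], [a₀]} : Finset (List A)) := by simp
    let l : ((({[], [a₀]} : Finset (List A)) → S) ×
        (({[], [a₀]} : Finset (List A)) → A → ({[], [a₀]} : Finset (List A)) → S)) :=
      (fun q => if q.1 = [] then 1 else 0,
        fun q _ p => if p.1 = [] then (if q.1 = [] then m else al) else 0)
    have sum1 : ∀ (c : S) (t : List A),
        ∑ q : (({[], [a₀]} : Finset (List A))), (if q.1 = [] then c else 0) *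
          g (q.1 ++ t).length = c * g t.length := by
      intro c t
      rw [Fintype.sum_eq_single (⟨[], mem0⟩ : (({[], [a₀]} : Finset (List A))))]
      · simp
      · intro x hx
        have : x.1 ≠ [] := fun h => hx (Subtype.ext h)
        rw [if_neg this, zero_mul]
    have hmem : l ∈ Lam (fun w : List A => g w.length) {[], [a₀]} (T : Set (List A)) := by
      refine ⟨fun t ht => ?_, fun q a t ht => ?_⟩
      · show g t.length = ∑ q : (({[], [a₀]} : Finset (List A))),
          (if q.1 = [] then 1 else 0) * g (q.1 ++ t).length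
        rw [sum1, one_mul]
      · show g ((q.1 ++ [a]) ++ t).length = ∑ p : (({[], [a₀]} : Finset (List A))),
          (if p.1 = [] then (if q.1 = [] then m else al) else 0) * g (p.1 ++ t).length
        rw [sum1]
        have hq := q.2
        rw [Finset.mem_insert, Finset.mem_singleton] at hq
        rcases hq with hq | hq
        · rw [if_pos hq, hq]
          simp only [List.nil_append, List.length_append, List.length_singleton]
          rw [hg, hg, ← mul_assoc, ← pow_succ', add_comm]
        · have hne : q.1 ≠ [] := by rw [hq]; simp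
          rw [if_neg hne, hq, hal1 _ (hk t ht)]
          rfl
    rw [hT] at hmem
    have h := hmem.2 ⟨[a₀], mem1⟩ a₀ (List.replicate (k + 1) a₀) (Set.mem_univ _)
    have h' : g (([a₀] ++ [a₀]) ++ List.replicate (k + 1) a₀).length =
        ∑ p : (({[], [a₀]} : Finset (List A))),
          (if p.1 = [] then al else 0) * g (p.1 ++ List.replicate (k + 1) a₀).length := by
      have e : ∀ p : (({[], [a₀]} : Finset (List A))),
          l.2 ⟨[a₀], mem1⟩ a₀ p = if p.1 = [] then al else 0 := by
        intro p
        show (if p.1 = [] then (if ([a₀] : List A) = [] then m else al) else 0) = _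
        rw [if_neg (by simp : ¬ ([a₀] : List A) = [])]
      simpa only [e] using h
    rw [sum1] at h'
    apply hal2
    have e1 : (([a₀] ++ [a₀]) ++ List.replicate (k + 1) a₀).length = k + 1 + 2 := by
      simp
    have e2 : (List.replicate (k + 1) a₀).length = k + 1 := List.length_replicate
    rw [e1, e2] at h'
    exact h'.symm

/-- The set `Γ_{Q,T}`: the element `c` consists of the scalars `c.1 t = γ_t` and
`c.2 s a t = γ_{s,a,t}`, acting from the right on the columns `[t]_w = f (w ++ t)`, `w ∈ Q`. -/
def Gam (f : List A → S) (Q : Set (List A)) (T : Finset (List A)) :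
    Set ((T → S) × (T → A → T → S)) :=
  {c | (∀ w ∈ Q, f w = ∑ t : T, f (w ++ t.1) * c.1 t) ∧
    (∀ (a : A) (t : T), ∀ w ∈ Q, f (w ++ (a :: t.1)) = ∑ s : T, f (w ++ s.1) * c.2 s a t)}

/-- `f` is co-guessable: `Γ_{Q,T} = Γ_T ≠ ∅` for some finite non-empty `T` and finite `Q`. -/
def CoGuessable (f : List A → S) : Prop :=
  ∃ Q T : Finset (List A), T.Nonempty ∧ Gam f (Q : Set (List A)) T = Gam f Set.univ T ∧
    (Gam f Set.univ T).Nonempty

/-- `f` is strongly co-guessable: it is co-guessable and for every finite non-empty `T` some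
finite `Q` has `Γ_{Q,T} = Γ_T`. -/
def StronglyCoGuessable (f : List A → S) : Prop :=
  CoGuessable f ∧ ∀ T : Finset (List A), T.Nonempty →
    ∃ Q : Finset (List A), Gam f (Q : Set (List A)) T = Gam f Set.univ T

/-- A sequence with the four properties gives, over each non-empty alphabet, a function that is
recognizable, co-guessable and not strongly co-guessable. -/
theorem mainCol {S : Type} [Semiring S] (g : ℕ → S)
    (P1 : ∀ l : S, g 0 * l = g 0 → ∀ n, g n * l = g n)
    (P2 : ∀ l : S, g 0 * l = g 1 → ∀ n, g n * l = g (n + 1))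
    (P3 : ∀ k, ∃ l : S, (∀ n ≤ k, g n * l = g (n + 2)) ∧ g (k + 1) * l ≠ g (k + 1 + 2))
    (P4 : ∃ a b : S, ∀ n, g n = b * a ^ n)
    (A : Type) [Nonempty A] :
    ∃ f : List A → S, Recognizable f ∧ CoGuessable f ∧ ¬ StronglyCoGuessable f := by
  classical
  obtain ⟨m, b, hg⟩ := P4
  refine ⟨fun w => g w.length, ?_, ?_, ?_⟩
  · refine ⟨1, fun _ => b, fun _ => Matrix.of fun _ _ => m, fun _ => 1, fun w => ?_⟩
    have key : ∀ w : List A,
        ((w.map fun _ => (Matrix.of fun _ _ => m : Matrix (Fin 1) (Fin 1) S)).prod) =
          (Matrix.of fun _ _ => m ^ w.length : Matrix (Fin 1) (Fin 1) S) := by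
      intro w
      induction w with
      | nil =>
        ext i j
        have : i = j := Subsingleton.elim i j
        subst this
        simp
      | cons a w ih =>
        rw [List.map_cons, List.prod_cons, ih]
        ext i j
        simp [Matrix.mul_apply, pow_succ']
    rw [key]
    simp [Matrix.mulVec, dotProduct, hg]
  · refine ⟨{[]}, {[]}, Finset.singleton_nonempty _, ?_, ?_⟩
    · apply Set.Subset.antisymm
      · rintro l ⟨h1, h2⟩
        have sum1 : ∀ (c : (({[]} : Finset (List A)) → S)) (w : List A),
            ∑ q : (({[]} : Finset (List A))), g (w ++ q.1).length * c q =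
              g w.length * c ⟨[], Finset.mem_singleton_self _⟩ := by
          intro c w
          rw [Fintype.sum_eq_single (⟨[], Finset.mem_singleton_self _⟩ :
            (({[]} : Finset (List A))))]
          · simp
          · intro x hx
            exact absurd (Subtype.ext (Finset.mem_singleton.1 x.2)) hx
        refine ⟨fun w _ => ?_, fun a t w _ => ?_⟩
        · have h := h1 [] (by simp)
          rw [sum1] at h ⊢
          exact (P1 _ h.symm w.length).symm
        · have h := h2 a t [] (by simp)
          have hq : t.1 = [] := Finset.mem_singleton.1 t.2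
          rw [sum1] at h ⊢
          have h' : g 0 * l.2 ⟨[], Finset.mem_singleton_self _⟩ a t = g 1 := by
            rw [← List.length_nil (α := A), ← h, hq]
            rfl
          rw [P2 _ h' w.length, hq]
          simp
      · rintro l ⟨h1, h2⟩
        exact ⟨fun t _ => h1 t (Set.mem_univ _), fun q a t _ => h2 q a t (Set.mem_univ _)⟩
    · refine ⟨(fun _ => 1, fun _ _ _ => m), fun w _ => ?_, fun a t w _ => ?_⟩
      · rw [Fintype.sum_eq_single (⟨[], Finset.mem_singleton_self _⟩ :
            (({[]} : Finset (List A))))]
        · simp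
        · intro x hx
          exact absurd (Subtype.ext (Finset.mem_singleton.1 x.2)) hx
      · rw [Fintype.sum_eq_single (⟨[], Finset.mem_singleton_self _⟩ :
            (({[]} : Finset (List A))))]
        · have hq : t.1 = [] := Finset.mem_singleton.1 t.2
          rw [hq]
          simp only [List.append_nil, List.length_append, List.length_singleton]
          rw [hg, hg, mul_assoc, ← pow_succ]
        · intro x hx
          exact absurd (Subtype.ext (Finset.mem_singleton.1 x.2)) hx
  · rintro ⟨-, hstrong⟩
    obtain ⟨a₀⟩ := ‹Nonempty A›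
    obtain ⟨Q, hQ⟩ := hstrong ({[], [a₀]} : Finset (List A)) ⟨[], by simp⟩
    obtain ⟨k, hk⟩ : ∃ k, ∀ w ∈ Q, w.length ≤ k :=
      ⟨Q.sup List.length, fun w hw => Finset.le_sup (f := List.length) hw⟩
    obtain ⟨al, hal1, hal2⟩ := P3 k
    have mem0 : ([] : List A) ∈ ({[], [a₀]} : Finset (List A)) := by simp
    have mem1 : ([a₀] : List A) ∈ ({[], [a₀]} : Finset (List A)) := by simp
    let l : ((({[], [a₀]} : Finset (List A)) → S) ×
        (({[], [a₀]} : Finset (List A)) → A → ({[], [a₀]} : Finset (List A)) → S)) :=
      (fun s => if s.1 = [] then 1 else 0,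
        fun s _ t => if s.1 = [] then (if t.1 = [] then m else al) else 0)
    have sum1 : ∀ (c : S) (w : List A),
        ∑ s : (({[], [a₀]} : Finset (List A))), g (w ++ s.1).length *
          (if s.1 = [] then c else 0) = g w.length * c := by
      intro c w
      rw [Fintype.sum_eq_single (⟨[], mem0⟩ : (({[], [a₀]} : Finset (List A))))]
      · simp
      · intro x hx
        have : x.1 ≠ [] := fun h => hx (Subtype.ext h)
        rw [if_neg this, mul_zero]
    have hmem : l ∈ Gam (fun w : List A => g w.length) (Q : Set (List A)) {[], [a₀]} := by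
      refine ⟨fun w hw => ?_, fun a t w hw => ?_⟩
      · show g w.length = ∑ s : (({[], [a₀]} : Finset (List A))),
          g (w ++ s.1).length * (if s.1 = [] then 1 else 0)
        rw [sum1, mul_one]
      · show g (w ++ (a :: t.1)).length = ∑ s : (({[], [a₀]} : Finset (List A))),
          g (w ++ s.1).length * (if s.1 = [] then (if t.1 = [] then m else al) else 0)
        rw [sum1]
        have hq := t.2
        rw [Finset.mem_insert, Finset.mem_singleton] at hq
        rcases hq with hq | hq
        · rw [if_pos hq, hq]
          simp only [List.length_append, List.length_singleton]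
          rw [hg, hg, mul_assoc, ← pow_succ]
        · have hne : t.1 ≠ [] := by rw [hq]; simp
          rw [if_neg hne, hq, hal1 _ (hk w hw)]
          congr 1
          simp
    rw [hQ] at hmem
    have h := hmem.2 a₀ ⟨[a₀], mem1⟩ (List.replicate (k + 1) a₀) (Set.mem_univ _)
    have h' : g (List.replicate (k + 1) a₀ ++ (a₀ :: [a₀])).length =
        ∑ s : (({[], [a₀]} : Finset (List A))),
          g (List.replicate (k + 1) a₀ ++ s.1).length * (if s.1 = [] then al else 0) := by
      have e : ∀ s : (({[], [a₀]} : Finset (List A))),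
          l.2 s a₀ ⟨[a₀], mem1⟩ = if s.1 = [] then al else 0 := by
        intro s
        show (if s.1 = [] then (if ([a₀] : List A) = [] then m else al) else 0) = _
        rw [if_neg (by simp : ¬ ([a₀] : List A) = [])]
      simpa only [e] using h
    rw [sum1] at h'
    apply hal2
    have e1 : (List.replicate (k + 1) a₀ ++ (a₀ :: [a₀])).length = k + 1 + 2 := by
      simp
    have e2 : (List.replicate (k + 1) a₀).length = k + 1 := List.length_replicate
    rw [e1, e2] at h'
    exact h'.symm

/-- **Q1.** There is a semiring `S` such that over every non-empty finite alphabet `A` some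
function `A* → S` computed by a finite weighted automaton is guessable but not strongly
guessable. -/
theorem resultRow : ∃ (S : Type) (_ : Semiring S), ∀ (A : Type) [Fintype A] [Nonempty A],
    ∃ f : List A → S, Recognizable f ∧ Guessable f ∧ ¬ StronglyGuessable f := by
  refine ⟨Pool.Agent.H94.Wa.S, inferInstance, fun A _ _ => ?_⟩
  exact mainRow Pool.Agent.H94.Wa.g Pool.Agent.H94.Wa.P1 Pool.Agent.H94.Wa.P2 Pool.Agent.H94.Wa.P3
    Pool.Agent.H94.Wa.P4 A

/-- **Q2.** There is a semiring `S` such that over every non-empty finite alphabet `A` some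
function `A* → S` computed by a finite weighted automaton is co-guessable but not strongly
co-guessable. -/
theorem resultCol : ∃ (S : Type) (_ : Semiring S), ∀ (A : Type) [Fintype A] [Nonempty A],
    ∃ f : List A → S, Recognizable f ∧ CoGuessable f ∧ ¬ StronglyCoGuessable f := by
  refine ⟨(Pool.Agent.H94.Wa.S)ᵐᵒᵖ, inferInstance, fun A _ _ => ?_⟩
  refine mainCol (fun n => MulOpposite.op (Pool.Agent.H94.Wa.g n)) ?_ ?_ ?_ ?_ A
  · intro l hl n
    have h := Pool.Agent.H94.Wa.P1 l.unop (congrArg MulOpposite.unop hl) n
    exact MulOpposite.unop_injective h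
  · intro l hl n
    have h := Pool.Agent.H94.Wa.P2 l.unop (congrArg MulOpposite.unop hl) n
    exact MulOpposite.unop_injective h
  · intro k
    obtain ⟨l, h1, h2⟩ := Pool.Agent.H94.Wa.P3 k
    refine ⟨MulOpposite.op l, fun n hn => ?_, fun h => h2 (congrArg MulOpposite.unop h)⟩
    exact MulOpposite.unop_injective (h1 n hn)
  · obtain ⟨a, b, h⟩ := Pool.Agent.H94.Wa.P4
    refine ⟨MulOpposite.op a, MulOpposite.op b, fun n => ?_⟩
    show MulOpposite.op (Pool.Agent.H94.Wa.g n) = MulOpposite.op b * MulOpposite.op a ^ n
    rw [h n, ← MulOpposite.op_pow, ← MulOpposite.op_mul]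

/-- **Q1 and Q2.** -/
theorem result :
    (∃ (S : Type) (_ : Semiring S), ∀ (A : Type) [Fintype A] [Nonempty A],
      ∃ f : List A → S, Recognizable f ∧ Guessable f ∧ ¬ StronglyGuessable f) ∧
    (∃ (S : Type) (_ : Semiring S), ∀ (A : Type) [Fintype A] [Nonempty A],
      ∃ f : List A → S, Recognizable f ∧ CoGuessable f ∧ ¬ StronglyCoGuessable f) :=
  ⟨resultRow, resultCol⟩

end Pool.Agent.Results.MP_2c9be0_lc.GuessBoth
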